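import Pool.Agent.Helper20.MB.DefsN

/-!
# Norm estimates for the pieces MB-4b and MB-4c
-/

open Filter Metric Module Set
open scoped Topology ContDiff RealInnerProductSpace Manifold

set_option maxSynthPendingDepth 3

namespace Pool.Agent.Helper22.MB
open Pool.Agent.Helper20.PC Pool.Agent.Helper20.HP Pool.Agent.Helper20.M8 Pool.Agent.Helper20.MB

section
variable {E : Type*} [NormedAddCommGroup E] [NormedSpace ℝ E] {f : E →L[ℝ] E →L[ℝ] ℝ}

lemma nrm_sq (hf : ∀ a, 0 ≤ f a a) (a : E) : nrm f a ^ 2 = f a a := Real.sq_sqrt (hf a)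

lemma nrm_nonneg (f : E →L[ℝ] E →L[ℝ] ℝ) (a : E) : 0 ≤ nrm f a := Real.sqrt_nonneg _

lemma nrm_one {a : E} (h : f a a = 1) : nrm f a = 1 := by rw [nrm, h, Real.sqrt_one]

/-- Cauchy-Schwarz. -/
lemma cs (hs : ∀ a b, f a b = f b a) (hf : ∀ a, 0 ≤ f a a) (a b : E) :
    |f a b| ≤ nrm f a * nrm f b := by
  have key : f a b ^ 2 ≤ f a a * f b b := by
    have h : ∀ t : ℝ, 0 ≤ f b b * (t * t) + (2 * f a b) * t + f a a := by
      intro t
      have := hf (a + t • b)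
      have e : f (a + t • b) (a + t • b) = f b b * (t * t) + (2 * f a b) * t + f a a := by
        simp only [map_add, map_smul, add_apply, smul_apply,
          smul_eq_mul]
        rw [hs b a]; ring
      rwa [e] at this
    have := discrim_le_zero h
    rw [discrim] at this
    nlinarith
  have h2 : |f a b| ^ 2 ≤ (nrm f a * nrm f b) ^ 2 := by
    rw [sq_abs, mul_pow, nrm_sq hf, nrm_sq hf]; exact key
  exact (abs_le_of_sq_le_sq h2 (mul_nonneg (nrm_nonneg _ _) (nrm_nonneg _ _))).trans' (le_abs_self _)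

/-- from `x^2 ≤ c x` infer `x ≤ c`. -/
lemma le_of_sq_le {x c : ℝ} (hc : 0 ≤ c) (h : x ^ 2 ≤ c * x) : x ≤ c := by
  by_contra hcon
  push Not at hcon
  have h6 : 0 < x := lt_of_le_of_lt hc hcon
  nlinarith

end

section
variable {V Y : Type*} [NormedAddCommGroup V] [NormedSpace ℝ V] [NormedAddCommGroup Y] [NormedSpace ℝ Y]
  {h : V → V →L[ℝ] V →L[ℝ] ℝ} {m : V → Y →L[ℝ] Y →L[ℝ] ℝ}
  {S : V → Y →L[ℝ] Y →L[ℝ] Y →L[ℝ] Y →L[ℝ] ℝ} {A : V → V →L[ℝ] Y →L[ℝ] Y} {x : V} {y : Y}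

lemma hs (H : NG h m S A x) (a b : V) : h x a b = h x b a := H.hh.symm.self_of_nhds a b

lemma hp (H : NG h m S A x) (a : V) : 0 ≤ h x a a := by
  by_cases ha : a = 0
  · simp [ha]
  · exact (H.hh.pos.self_of_nhds a ha).le

lemma ms (H : NG h m S A x) (a b : Y) : m x a b = m x b a := H.hm.symm.self_of_nhds a b

lemma mp (H : NG h m S A x) (a : Y) : 0 ≤ m x a a := by
  by_cases ha : a = 0
  · simp [ha]
  · exact (H.hm.pos.self_of_nhds a ha).le

/-- `MM` as a continuous bilinear form. -/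
noncomputable def ML (m : V → Y →L[ℝ] Y →L[ℝ] ℝ) (S : V → Y →L[ℝ] Y →L[ℝ] Y →L[ℝ] Y →L[ℝ] ℝ)
    (δ : ℝ) (x : V) (y : Y) : Y →L[ℝ] Y →L[ℝ] ℝ := m x - (δ ^ 2) • (S x y).flip y

omit [NormedAddCommGroup V] [NormedSpace ℝ V] in
lemma ML_apply (δ : ℝ) (a b : Y) : ML m S δ x y a b = MM m S δ x y a b := by
  simp [ML, MM]

lemma MM_symm (H : NG h m S A x) (δ : ℝ) (a b : Y) : MM m S δ x y a b = MM m S δ x y b a := by
  rw [MM, MM, ms H a b, H.S2.self_of_nhds y a y b]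

lemma S_le {b : ℝ} (hb : BdN h m S A x b) (yy : m x y y = 1) (p q : Y) :
    |S x y p y q| ≤ b * nrm (m x) p * nrm (m x) q := by
  have := hb.hS0 y p y q
  rw [nrm_one yy] at this
  linarith

/-- `MM` controls `m`. -/
lemma MM_lower (H : NG h m S A x) {b δ : ℝ} (hb : BdN h m S A x b) (δb : δ ^ 2 * b ≤ 1 / 100)
    (yy : m x y y = 1) (p : Y) : (99/100) * nrm (m x) p ^ 2 ≤ MM m S δ x y p p := by
  have h1 := hb.hS0 y p y p
  rw [nrm_one yy] at h1
  have h2 := (abs_le.mp h1).2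
  have h3 : δ ^ 2 * S x y p y p ≤ δ ^ 2 * (b * nrm (m x) p ^ 2) :=
    mul_le_mul_of_nonneg_left (by linarith) (sq_nonneg δ)
  have h4 : δ ^ 2 * b * nrm (m x) p ^ 2 ≤ 1 / 100 * nrm (m x) p ^ 2 :=
    mul_le_mul_of_nonneg_right δb (sq_nonneg _)
  rw [MM, ← nrm_sq (mp H) p]
  linarith

lemma MM_nonneg (H : NG h m S A x) {b δ : ℝ} (hb : BdN h m S A x b) (δb : δ ^ 2 * b ≤ 1 / 100)
    (yy : m x y y = 1) (p : Y) : 0 ≤ MM m S δ x y p p :=
  le_trans (by positivity) (MM_lower H hb δb yy p)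

/-- the norm of a `MM`-unit vector. -/
lemma nrm_unit (H : NG h m S A x) {b δ : ℝ} (hb : BdN h m S A x b) (δb : δ ^ 2 * b ≤ 1 / 100)
    (yy : m x y y = 1) {p : Y} (hp' : MM m S δ x y p p = 1) : nrm (m x) p ≤ 101/100 := by
  have h1 := MM_lower H hb δb yy p
  rw [hp'] at h1
  have h0 := nrm_nonneg (m x) p
  nlinarith

/-- the norm of `Ω(X, ξ) y`. -/
lemma Om_le (H : NG h m S A x) {b : ℝ} (hb : BdN h m S A x b) (yy : m x y y = 1) (X ξ : V) :
    nrm (m x) (OmV A x X ξ y) ≤ b * nrm (h x) X * nrm (h x) ξ := by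
  have h1 := (abs_le.mp (hb.hOm X ξ (OmV A x X ξ y) y)).2
  rw [nrm_one yy, ← nrm_sq (mp H)] at h1
  have hb0 : 0 ≤ b := zero_le_one.trans hb.one
  have h2 := nrm_nonneg (h x) X
  have h3 := nrm_nonneg (h x) ξ
  exact le_of_sq_le (by positivity) (by linarith)

end

end Pool.Agent.Helper22.MB
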