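import Pool.Agent.Helper22.MB.P4c

/-!
# MB-4b: the horizontal part of the difference tensor
-/

open Filter Metric Module Set
open scoped Topology ContDiff RealInnerProductSpace Manifold

set_option maxSynthPendingDepth 3

namespace Pool.Agent.Helper22.MB
open Pool.Agent.Helper20.PC Pool.Agent.Helper20.HP Pool.Agent.Helper20.M8 Pool.Agent.Helper20.MB

section
variable {V Y : Type*} [NormedAddCommGroup V] [NormedSpace ℝ V] [NormedAddCommGroup Y] [NormedSpace ℝ Y]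
  {h : V → V →L[ℝ] V →L[ℝ] ℝ} {m : V → Y →L[ℝ] Y →L[ℝ] ℝ}
  {S : V → Y →L[ℝ] Y →L[ℝ] Y →L[ℝ] Y →L[ℝ] ℝ} {A : V → V →L[ℝ] Y →L[ℝ] Y} {x : V} {y : Y}

lemma OmV_smul (c : ℝ) (X ξ : V) (q : Y) : OmV A x (c • X) ξ q = c • OmV A x X ξ q := by
  simp only [OmV, map_smul, sub_apply, add_apply, smul_apply, ContinuousLinearMap.comp_apply,
    smul_add, smul_sub]

omit [NormedAddCommGroup V] [NormedSpace ℝ V] in
lemma MM_smul (δ c d : ℝ) (p q : Y) : MM m S δ x y (c • p) (d • q) = c * d * MM m S δ x y p q := by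
  simp only [MM, map_smul, smul_apply, smul_eq_mul]; ring

/-- the equation of `th` made explicit. -/
lemma hf_apply (H : NG h m S A x) {δ : ℝ} (δ0 : 0 < δ) {X Z : V} {U T : Y} {ca sa cb sb : ℝ}
    {th : V}
    (h1 : IsHF h m S A δ x y (ca • X) ((sa / δ) • U) (cb • Z) ((sb / δ) • T) th) (ξ : V) :
    h x th ξ = (1/2) * δ ^ 2 * (sa * sb) * dS4 S x ξ y U y T
      + (1/2) * δ * (ca * sb) * MM m S δ x y T (OmV A x X ξ y)
      + (1/2) * δ * (sa * cb) * MM m S δ x y U (OmV A x Z ξ y) := by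
  rw [h1 ξ, dS4_smul2 H.hS, dS4_smul4 H.hS, OmV_smul, OmV_smul, MM_smul, MM_smul]
  field_simp

/-- the size of the horizontal part, diagonal case. -/
lemma hf_size (H : NG h m S A x) {b δ : ℝ} (hb : BdN h m S A x b) (δ0 : 0 < δ)
    (δb : δ ^ 2 * b ≤ 1 / 100) (yy : m x y y = 1) {X : V} {U : Y} {ca sa : ℝ}
    (XX : h x X X = 1) (UU : MM m S δ x y U U = 1) {tu : V}
    (h5 : IsHF h m S A δ x y (ca • X) ((sa / δ) • U) (ca • X) ((sa / δ) • U) tu) :
    nrm (h x) tu ≤ b * (δ ^ 2 * sa ^ 2 + 2 * δ * |ca * sa|) := by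
  have hb0 : 0 ≤ b := zero_le_one.trans hb.one
  have hU := nrm_unit H hb δb yy UU
  have hU0 := nrm_nonneg (m x) U
  have e := hf_apply H δ0 h5 tu
  have ht0 := nrm_nonneg (h x) tu
  have hd1 := hb.hS1 tu y U y U
  rw [nrm_one yy] at hd1
  have hw := Om_le H hb yy X tu
  rw [nrm_one XX] at hw
  have hw0 := nrm_nonneg (m x) (OmV A x X tu y)
  have hm1 := cs (ms H) (mp H) U (OmV A x X tu y)
  have hS := S_le hb yy U (OmV A x X tu y)
  set N := nrm (h x) tu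
  set w := nrm (m x) (OmV A x X tu y)
  set u := nrm (m x) U
  have hwN : w ≤ b * N := by linarith
  have huw : u * w ≤ (101/100) * (b * N) := mul_le_mul hU hwN hw0 (by norm_num)
  have hMM : |MM m S δ x y U (OmV A x X tu y)| ≤ 2 * (b * N) := by
    rw [MM]
    calc |m x U (OmV A x X tu y) - δ ^ 2 * S x y U y (OmV A x X tu y)|
        ≤ |m x U (OmV A x X tu y)| + |δ ^ 2 * S x y U y (OmV A x X tu y)| := abs_sub _ _
      _ = |m x U (OmV A x X tu y)| + δ ^ 2 * |S x y U y (OmV A x X tu y)| := by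
        rw [abs_mul, abs_of_nonneg (sq_nonneg δ)]
      _ ≤ u * w + δ ^ 2 * (b * u * w) := by
        have := mul_le_mul_of_nonneg_left hS (sq_nonneg δ)
        linarith
      _ = u * w + (δ ^ 2 * b) * (u * w) := by ring
      _ ≤ u * w + (1/100) * (u * w) := by
        have := mul_le_mul_of_nonneg_right δb (mul_nonneg hU0 hw0)
        linarith
      _ ≤ _ := by nlinarith [mul_nonneg hb0 ht0]
  have hu2 : u ^ 2 ≤ 11/10 := by nlinarith
  have hdS : |dS4 S x tu y U y U| ≤ 2 * (b * N) := by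
    have : u ^ 2 * (b * N) ≤ (11/10) * (b * N) := mul_le_mul_of_nonneg_right hu2 (by positivity)
    have h0 : 0 ≤ b * N := by positivity
    nlinarith
  rw [← nrm_sq (hp H)] at e
  apply le_of_sq_le (by positivity)

  rw [e]
  have c1 : (1/2) * δ ^ 2 * (sa * sa) * dS4 S x tu y U y U ≤ (1/2) * δ ^ 2 * (sa * sa) * (2 * (b * N)) := by
    apply mul_le_mul_of_nonneg_left ((le_abs_self _).trans hdS)
    have := mul_self_nonneg sa
    positivity
  have c2 : (1/2) * δ * (ca * sa) * MM m S δ x y U (OmV A x X tu y)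
      ≤ (1/2) * δ * |ca * sa| * (2 * (b * N)) := by
    calc (1/2) * δ * (ca * sa) * MM m S δ x y U (OmV A x X tu y)
        ≤ |(1/2) * δ * (ca * sa) * MM m S δ x y U (OmV A x X tu y)| := le_abs_self _
      _ = (1/2) * δ * |ca * sa| * |MM m S δ x y U (OmV A x X tu y)| := by
        rw [abs_mul, abs_mul (1/2 * δ), abs_of_pos (by positivity : 0 < 1/2 * δ)]
      _ ≤ _ := mul_le_mul_of_nonneg_left hMM (by positivity)
  have c3 : (1/2) * δ * (sa * ca) * MM m S δ x y U (OmV A x X tu y)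
      ≤ (1/2) * δ * |ca * sa| * (2 * (b * N)) := by
    rw [mul_comm sa ca]; exact c2
  nlinarith

theorem hor_lower (H : NG h m S A x) {b δ : ℝ} (hb : BdN h m S A x b) {X Z : V} {U T : Y}
    {ca sa cb sb : ℝ} (F : Fr h m S δ b x y X Z U T ca sa cb sb) {th thu thv t1 t2 : V}
    (h1 : IsHF h m S A δ x y (ca • X) ((sa / δ) • U) (cb • Z) ((sb / δ) • T) th)
    (h2 : IsHF h m S A δ x y (ca • X) ((sa / δ) • U) (ca • X) ((sa / δ) • U) thu)
    (h3 : IsHF h m S A δ x y (cb • Z) ((sb / δ) • T) (cb • Z) ((sb / δ) • T) thv)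
    (h4 : ∀ ξ, h x t1 ξ = m x T (OmV A x X ξ y)) (h5 : ∀ ξ, h x t2 ξ = m x U (OmV A x Z ξ y)) :
    δ ^ 2 * ((ca * sb) ^ 2 * ((1/4) * h x t1 t1) + (sa * cb) ^ 2 * ((1/4) * h x t2 t2))
      - 100 * b ^ 3 * Er δ (ca * cb) (sa * sb) (ca * sb) (sa * cb)
      ≤ h x th th - h x thu thv := by
  have hb1 := hb.one
  have hb0 : 0 ≤ b := zero_le_one.trans hb.one
  have hδ := F.δ0
  have hδ1 := F.δ1
  have hU := nrm_unit H hb F.δb F.yy F.UU
  have hU0 := nrm_nonneg (m x) U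
  have hT := nrm_unit H hb F.δb F.yy F.TT
  have hT0 := nrm_nonneg (m x) T
  -- the product term
  have g1 := hf_size H hb F.δ0 F.δb F.yy F.XX F.UU h2
  have g2 := hf_size H hb F.δ0 F.δb F.yy F.ZZ F.TT h3
  have g3 : h x thu thv ≤ nrm (h x) thu * nrm (h x) thv := (le_abs_self _).trans (cs (hs H) (hp H) _ _)
  have g4 : nrm (h x) thu * nrm (h x) thv
      ≤ (b * (δ ^ 2 * sa ^ 2 + 2 * δ * |ca * sa|)) * (b * (δ ^ 2 * sb ^ 2 + 2 * δ * |cb * sb|)) :=
    mul_le_mul g1 g2 (nrm_nonneg _ _) (by positivity)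
  have e1 : |ca * sa| * |cb * sb| = |ca * cb * (sa * sb)| := by
    rw [← abs_mul]; congr 1; ring
  have e2 : |ca * sa| * sb ^ 2 = |sa * sb| * |ca * sb| := by
    rw [← sq_abs sb]; simp only [abs_mul]; ring
  have e3 : |cb * sb| * sa ^ 2 = |sa * sb| * |sa * cb| := by
    rw [← sq_abs sa]; simp only [abs_mul]; ring
  have e4 : (b * (δ ^ 2 * sa ^ 2 + 2 * δ * |ca * sa|)) * (b * (δ ^ 2 * sb ^ 2 + 2 * δ * |cb * sb|))
      = b ^ 2 * (δ ^ 4 * (sa * sb) ^ 2 + 2 * δ ^ 3 * (|sa * sb| * (|ca * sb| + |sa * cb|))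
        + 4 * δ ^ 2 * |ca * cb * (sa * sb)|) := by
    rw [← e1, mul_add |sa * sb|, ← e2, ← e3]; ring
  rw [e4] at g4
  -- the sizes of `t1`, `t2`
  have n1 : nrm (h x) t1 ≤ (101/100) * b := by
    have a1 := h4 t1
    rw [← nrm_sq (hp H)] at a1
    have a2 := (le_abs_self _).trans (cs (ms H) (mp H) T (OmV A x X t1 y))
    have a3 := Om_le H hb F.yy X t1
    rw [nrm_one F.XX] at a3
    have a4 : nrm (m x) T * nrm (m x) (OmV A x X t1 y) ≤ (101/100) * (b * 1 * nrm (h x) t1) :=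
      mul_le_mul hT a3 (nrm_nonneg _ _) (by norm_num)
    exact le_of_sq_le (by positivity) (by linarith)
  have n2 : nrm (h x) t2 ≤ (101/100) * b := by
    have a1 := h5 t2
    rw [← nrm_sq (hp H)] at a1
    have a2 := (le_abs_self _).trans (cs (ms H) (mp H) U (OmV A x Z t2 y))
    have a3 := Om_le H hb F.yy Z t2
    rw [nrm_one F.ZZ] at a3
    have a4 : nrm (m x) U * nrm (m x) (OmV A x Z t2 y) ≤ (101/100) * (b * 1 * nrm (h x) t2) :=
      mul_le_mul hU a3 (nrm_nonneg _ _) (by norm_num)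
    exact le_of_sq_le (by positivity) (by linarith)
  -- the remainder
  obtain ⟨e, he⟩ : ∃ e : V, e = th - ((δ / 2 * (ca * sb)) • t1 + (δ / 2 * (sa * cb)) • t2) := ⟨_, rfl⟩
  have heq : ∀ ξ, h x e ξ = (1/2) * δ ^ 2 * (sa * sb) * dS4 S x ξ y U y T
      - (1/2) * δ ^ 3 * ((ca * sb) * S x y T y (OmV A x X ξ y) + (sa * cb) * S x y U y (OmV A x Z ξ y)) := by
    intro ξ
    have := hf_apply H hδ h1 ξ
    rw [MM, MM] at this
    rw [he]
    simp only [map_sub, map_add, map_smul, sub_apply, add_apply, smul_apply, smul_eq_mul]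
    rw [this, h4 ξ, h5 ξ]; ring
  have hth : th = e + ((δ / 2 * (ca * sb)) • t1 + (δ / 2 * (sa * cb)) • t2) := by rw [he]; abel
  have ne0 := nrm_nonneg (h x) e
  have ne : nrm (h x) e ≤ b ^ 2 * (δ ^ 2 * |sa * sb| + δ ^ 3 * (|ca * sb| + |sa * cb|)) := by
    have a1 := heq e
    rw [← nrm_sq (hp H)] at a1
    have b1 := hb.hS1 e y U y T
    rw [nrm_one F.yy] at b1
    have b2 := S_le hb F.yy T (OmV A x X e y)
    have b3 := S_le hb F.yy U (OmV A x Z e y)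
    have b4 := Om_le H hb F.yy X e
    have b5 := Om_le H hb F.yy Z e
    rw [nrm_one F.XX] at b4
    rw [nrm_one F.ZZ] at b5
    have b40 := nrm_nonneg (m x) (OmV A x X e y)
    have b50 := nrm_nonneg (m x) (OmV A x Z e y)
    have d1 : |dS4 S x e y U y T| ≤ 2 * (b * nrm (h x) e) := by
      have : nrm (m x) U * nrm (m x) T ≤ (101/100) * (101/100) := mul_le_mul hU hT hT0 (by norm_num)
      have h0 : 0 ≤ b * nrm (h x) e := by positivity
      have := mul_le_mul_of_nonneg_left this h0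
      nlinarith
    have d2 : |S x y T y (OmV A x X e y)| ≤ 2 * (b ^ 2 * nrm (h x) e) / 2 * (11/10) := by
      have : nrm (m x) T * nrm (m x) (OmV A x X e y) ≤ (101/100) * (b * 1 * nrm (h x) e) :=
        mul_le_mul hT b4 b40 (by norm_num)
      have := mul_le_mul_of_nonneg_left this hb0
      have h0 : 0 ≤ b ^ 2 * nrm (h x) e := by positivity
      nlinarith
    have d3 : |S x y U y (OmV A x Z e y)| ≤ 2 * (b ^ 2 * nrm (h x) e) / 2 * (11/10) := by
      have : nrm (m x) U * nrm (m x) (OmV A x Z e y) ≤ (101/100) * (b * 1 * nrm (h x) e) :=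
        mul_le_mul hU b5 b50 (by norm_num)
      have := mul_le_mul_of_nonneg_left this hb0
      have h0 : 0 ≤ b ^ 2 * nrm (h x) e := by positivity
      nlinarith
    apply le_of_sq_le (by positivity)
    rw [a1]
    have f1 : (1/2) * δ ^ 2 * (sa * sb) * dS4 S x e y U y T
        ≤ (1/2) * δ ^ 2 * |sa * sb| * (2 * (b * nrm (h x) e)) := by
      calc _ ≤ |(1/2) * δ ^ 2 * (sa * sb) * dS4 S x e y U y T| := le_abs_self _
        _ = (1/2) * δ ^ 2 * |sa * sb| * |dS4 S x e y U y T| := by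
          rw [abs_mul, abs_mul (1/2 * δ ^ 2), abs_of_pos (by positivity : 0 < 1/2 * δ ^ 2)]
        _ ≤ _ := mul_le_mul_of_nonneg_left d1 (by positivity)
    have f2 : - ((ca * sb) * S x y T y (OmV A x X e y))
        ≤ |ca * sb| * (2 * (b ^ 2 * nrm (h x) e) / 2 * (11/10)) := by
      calc _ ≤ |(ca * sb) * S x y T y (OmV A x X e y)| := neg_le_abs _
        _ = |ca * sb| * |S x y T y (OmV A x X e y)| := abs_mul _ _
        _ ≤ _ := mul_le_mul_of_nonneg_left d2 (by positivity)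
    have f3 : - ((sa * cb) * S x y U y (OmV A x Z e y))
        ≤ |sa * cb| * (2 * (b ^ 2 * nrm (h x) e) / 2 * (11/10)) := by
      calc _ ≤ |(sa * cb) * S x y U y (OmV A x Z e y)| := neg_le_abs _
        _ = |sa * cb| * |S x y U y (OmV A x Z e y)| := abs_mul _ _
        _ ≤ _ := mul_le_mul_of_nonneg_left d3 (by positivity)
    have f4 : (1/2) * δ ^ 3 * (- ((ca * sb) * S x y T y (OmV A x X e y))
          + - ((sa * cb) * S x y U y (OmV A x Z e y)))
        ≤ (1/2) * δ ^ 3 * (|ca * sb| * (2 * (b ^ 2 * nrm (h x) e) / 2 * (11/10))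
          + |sa * cb| * (2 * (b ^ 2 * nrm (h x) e) / 2 * (11/10))) :=
      mul_le_mul_of_nonneg_left (add_le_add f2 f3) (by positivity)
    have f5 : δ ^ 2 * |sa * sb| * (b * nrm (h x) e) ≤ δ ^ 2 * |sa * sb| * (b ^ 2 * nrm (h x) e) := by
      apply mul_le_mul_of_nonneg_left _ (by positivity)
      apply mul_le_mul_of_nonneg_right _ ne0
      nlinarith
    have f6 : 0 ≤ δ ^ 3 * (|ca * sb| + |sa * cb|) * (b ^ 2 * nrm (h x) e) := by positivity
    nlinarith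
  -- expansion
  have hexp : h x th th = δ ^ 2 * ((ca * sb) ^ 2 * ((1/4) * h x t1 t1) + (sa * cb) ^ 2 * ((1/4) * h x t2 t2))
      + δ ^ 2 / 2 * ((ca * cb * (sa * sb)) * h x t1 t2)
      + δ * ((ca * sb) * h x t1 e + (sa * cb) * h x t2 e) + h x e e := by
    rw [hth]
    simp only [map_add, map_smul, add_apply, smul_apply, smul_eq_mul]
    rw [hs H e t1, hs H e t2, hs H t2 t1]; ring
  have k1 : - ((ca * cb * (sa * sb)) * h x t1 t2) ≤ |ca * cb * (sa * sb)| * (2 * b ^ 2) := by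
    calc _ ≤ |(ca * cb * (sa * sb)) * h x t1 t2| := neg_le_abs _
      _ = |ca * cb * (sa * sb)| * |h x t1 t2| := abs_mul _ _
      _ ≤ |ca * cb * (sa * sb)| * (nrm (h x) t1 * nrm (h x) t2) :=
        mul_le_mul_of_nonneg_left (cs (hs H) (hp H) _ _) (abs_nonneg _)
      _ ≤ _ := by
        apply mul_le_mul_of_nonneg_left _ (abs_nonneg _)
        have := mul_le_mul n1 n2 (nrm_nonneg _ _) (by positivity)
        nlinarith [sq_nonneg b]
  have ke : ∀ (c : ℝ) (t : V), nrm (h x) t ≤ (101/100) * b →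
      - (c * h x t e) ≤ |c| * (2 * b * nrm (h x) e) := by
    intro c t ht
    calc _ ≤ |c * h x t e| := neg_le_abs _
      _ = |c| * |h x t e| := abs_mul _ _
      _ ≤ |c| * (nrm (h x) t * nrm (h x) e) :=
        mul_le_mul_of_nonneg_left (cs (hs H) (hp H) _ _) (abs_nonneg _)
      _ ≤ _ := by
        apply mul_le_mul_of_nonneg_left _ (abs_nonneg _)
        have := mul_le_mul_of_nonneg_right ht ne0
        have h0 : 0 ≤ b * nrm (h x) e := by positivity
        nlinarith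
  have k2 := ke (ca * sb) t1 n1
  have k3 := ke (sa * cb) t2 n2
  have k4 : 0 ≤ h x e e := hp H e
  have k5 : 2 * b * nrm (h x) e ≤ 2 * b ^ 3 * (δ ^ 2 * |sa * sb| + δ ^ 3 * (|ca * sb| + |sa * cb|)) := by
    have := mul_le_mul_of_nonneg_left ne (by positivity : 0 ≤ 2 * b)
    calc _ ≤ _ := this
      _ = _ := by ring
  have k6 : δ * (- ((ca * sb) * h x t1 e) + - ((sa * cb) * h x t2 e))
      ≤ δ * ((|ca * sb| + |sa * cb|) * (2 * b ^ 3 * (δ ^ 2 * |sa * sb| + δ ^ 3 * (|ca * sb| + |sa * cb|)))) := by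
    apply mul_le_mul_of_nonneg_left _ hδ.le
    calc _ ≤ |ca * sb| * (2 * b * nrm (h x) e) + |sa * cb| * (2 * b * nrm (h x) e) := add_le_add k2 k3
      _ = (|ca * sb| + |sa * cb|) * (2 * b * nrm (h x) e) := by ring
      _ ≤ _ := mul_le_mul_of_nonneg_left k5 (by positivity)
  have d2 : δ ^ 2 ≤ 1 := pow_le_one₀ hδ.le hδ1
  have m2 : (|ca * sb| + |sa * cb|) ^ 2 ≤ 2 * ((ca * sb) ^ 2 + (sa * cb) ^ 2) := by
    have := sq_nonneg (|ca * sb| - |sa * cb|)
    rw [← sq_abs (ca * sb), ← sq_abs (sa * cb)]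
    nlinarith
  have k7 : δ * ((|ca * sb| + |sa * cb|) * (2 * b ^ 3 * (δ ^ 2 * |sa * sb| + δ ^ 3 * (|ca * sb| + |sa * cb|))))
      ≤ 4 * b ^ 3 * (δ * |sa * sb| * (|ca * sb| + |sa * cb|) + δ ^ 4 * ((ca * sb) ^ 2 + (sa * cb) ^ 2)) := by
    have r1 : δ ^ 2 * (δ * |sa * sb| * (|ca * sb| + |sa * cb|)) ≤ 1 * (δ * |sa * sb| * (|ca * sb| + |sa * cb|)) :=
      mul_le_mul_of_nonneg_right d2 (by positivity)
    have r2 : δ ^ 4 * (|ca * sb| + |sa * cb|) ^ 2 ≤ δ ^ 4 * (2 * ((ca * sb) ^ 2 + (sa * cb) ^ 2)) :=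
      mul_le_mul_of_nonneg_left m2 (by positivity)
    have r0 : 0 ≤ δ * |sa * sb| * (|ca * sb| + |sa * cb|) := by positivity
    calc _ = 2 * b ^ 3 * (δ ^ 2 * (δ * |sa * sb| * (|ca * sb| + |sa * cb|))
            + δ ^ 4 * (|ca * sb| + |sa * cb|) ^ 2) := by ring
      _ ≤ 2 * b ^ 3 * (2 * (δ * |sa * sb| * (|ca * sb| + |sa * cb|))
            + 2 * (δ ^ 4 * ((ca * sb) ^ 2 + (sa * cb) ^ 2))) := by
        apply mul_le_mul_of_nonneg_left _ (by positivity)
        linarith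
      _ = _ := by ring
  have b23 : b ^ 2 ≤ b ^ 3 := pow_le_pow_right₀ hb.one (by norm_num)
  have hE : 0 ≤ Er δ (ca * cb) (sa * sb) (ca * sb) (sa * cb) := by rw [Er]; positivity
  have k8 : δ ^ 2 / 2 * (- ((ca * cb * (sa * sb)) * h x t1 t2)) ≤ b ^ 2 * |ca * cb * (sa * sb)| := by
    calc _ ≤ δ ^ 2 / 2 * (|ca * cb * (sa * sb)| * (2 * b ^ 2)) :=
          mul_le_mul_of_nonneg_left k1 (by positivity)
      _ = δ ^ 2 * (b ^ 2 * |ca * cb * (sa * sb)|) := by ring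
      _ ≤ 1 * (b ^ 2 * |ca * cb * (sa * sb)|) := mul_le_mul_of_nonneg_right d2 (by positivity)
      _ = _ := one_mul _
  have g5 : δ ^ 4 * (sa * sb) ^ 2 + 2 * δ ^ 3 * (|sa * sb| * (|ca * sb| + |sa * cb|))
        + 4 * δ ^ 2 * |ca * cb * (sa * sb)|
      ≤ (sa * sb) ^ 2 + 2 * (δ * |sa * sb| * (|ca * sb| + |sa * cb|)) + 4 * |ca * cb * (sa * sb)| := by
    have q1 : δ ^ 4 * (sa * sb) ^ 2 ≤ 1 * (sa * sb) ^ 2 :=
      mul_le_mul_of_nonneg_right (pow_le_one₀ hδ.le hδ1) (sq_nonneg _)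
    have q2 : δ ^ 2 * (δ * |sa * sb| * (|ca * sb| + |sa * cb|)) ≤ 1 * (δ * |sa * sb| * (|ca * sb| + |sa * cb|)) :=
      mul_le_mul_of_nonneg_right d2 (by positivity)
    have q3 : δ ^ 2 * |ca * cb * (sa * sb)| ≤ 1 * |ca * cb * (sa * sb)| :=
      mul_le_mul_of_nonneg_right d2 (abs_nonneg _)
    nlinarith
  have t1' : 0 ≤ δ ^ 2 * (ca * cb) ^ 2 := by positivity
  have t2' : 0 ≤ |ca * cb * (sa * sb)| := abs_nonneg _
  have t3' : 0 ≤ δ * |sa * sb| * (|ca * sb| + |sa * cb|) := by positivity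
  have t4' : 0 ≤ δ ^ 3 * |ca * cb| * (|ca * sb| + |sa * cb|) := by positivity
  have t5' : 0 ≤ δ ^ 4 * ((ca * sb) ^ 2 + (sa * cb) ^ 2) := by positivity
  have t6' : 0 ≤ (sa * sb) ^ 2 := sq_nonneg _
  have g6 : b ^ 2 * (δ ^ 4 * (sa * sb) ^ 2 + 2 * δ ^ 3 * (|sa * sb| * (|ca * sb| + |sa * cb|))
        + 4 * δ ^ 2 * |ca * cb * (sa * sb)|)
      ≤ b ^ 3 * (4 * Er δ (ca * cb) (sa * sb) (ca * sb) (sa * cb)) := by
    apply mul_le_mul b23 _ (by positivity) (by positivity)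
    rw [Er]; linarith
  have g7 : b ^ 2 * |ca * cb * (sa * sb)| ≤ b ^ 3 * Er δ (ca * cb) (sa * sb) (ca * sb) (sa * cb) := by
    apply mul_le_mul b23 _ (by positivity) (by positivity)
    rw [Er]; linarith
  have g8 : 4 * b ^ 3 * (δ * |sa * sb| * (|ca * sb| + |sa * cb|) + δ ^ 4 * ((ca * sb) ^ 2 + (sa * cb) ^ 2))
      ≤ 4 * b ^ 3 * Er δ (ca * cb) (sa * sb) (ca * sb) (sa * cb) := by
    apply mul_le_mul_of_nonneg_left _ (by positivity)
    rw [Er]; linarith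
  have g9 : 0 ≤ b ^ 3 * Er δ (ca * cb) (sa * sb) (ca * sb) (sa * cb) := by positivity
  rw [hexp]
  linarith

end

end Pool.Agent.Helper22.MB
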