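import Pool.Agent.Helper22.MB.Base

/-!
# MB-4c: the vertical part of the difference tensor
-/

open Filter Metric Module Set
open scoped Topology ContDiff RealInnerProductSpace Manifold

set_option maxSynthPendingDepth 3

namespace Pool.Agent.Helper22.MB
open Pool.Agent.Helper20.PC Pool.Agent.Helper20.HP Pool.Agent.Helper20.M8 Pool.Agent.Helper20.MB

section
variable {V Y : Type*} [NormedAddCommGroup V] [NormedSpace ℝ V] [NormedAddCommGroup Y] [NormedSpace ℝ Y]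
  {h : V → V →L[ℝ] V →L[ℝ] ℝ} {m : V → Y →L[ℝ] Y →L[ℝ] ℝ}
  {S : V → Y →L[ℝ] Y →L[ℝ] Y →L[ℝ] Y →L[ℝ] ℝ} {A : V → V →L[ℝ] Y →L[ℝ] Y} {x : V} {y : Y}

lemma dS4_smul (c : ℝ) (X : V) (a b c' d : Y) : dS4 S x (c • X) a b c' d = c * dS4 S x X a b c' d := by
  simp [dS4]

/-- homogeneity in the second entry of a family. -/
lemma dS4_smul2 (hS : ContDiffAt ℝ 2 S x) (c : ℝ) (X : V) (a b c' d : Y) :
    dS4 S x X a (c • b) c' d = c * dS4 S x X a b c' d := by
  have hd : DifferentiableAt ℝ (fun x' => S x' a b c' d) x := by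
    have := hS.differentiableAt (by norm_num)
    exact (((this.clm_apply (differentiableAt_const a)).clm_apply (differentiableAt_const b)).clm_apply
      (differentiableAt_const c')).clm_apply (differentiableAt_const d)
  have e : (fun x' => S x' a (c • b) c' d) = fun x' => c * S x' a b c' d := by
    funext x'; simp
  rw [dS4, e, fderiv_const_mul hd]
  simp [dS4]

/-- homogeneity in the fourth entry of a family. -/
lemma dS4_smul4 (hS : ContDiffAt ℝ 2 S x) (c : ℝ) (X : V) (a b c' d : Y) :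
    dS4 S x X a b c' (c • d) = c * dS4 S x X a b c' d := by
  have hd : DifferentiableAt ℝ (fun x' => S x' a b c' d) x := by
    have := hS.differentiableAt (by norm_num)
    exact (((this.clm_apply (differentiableAt_const a)).clm_apply (differentiableAt_const b)).clm_apply
      (differentiableAt_const c')).clm_apply (differentiableAt_const d)
  have e : (fun x' => S x' a b c' (c • d)) = fun x' => c * S x' a b c' d := by
    funext x'; simp
  rw [dS4, e, fderiv_const_mul hd]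
  simp [dS4]

/-- the size of the vertical part, diagonal case. -/
lemma vf_size (H : NG h m S A x) {b δ : ℝ} (hb : BdN h m S A x b) (δ0 : 0 < δ)
    (δb : δ ^ 2 * b ≤ 1 / 100) (yy : m x y y = 1) {X : V} {U : Y} {ca sa : ℝ}
    (XX : h x X X = 1) (UU : MM m S δ x y U U = 1) {tu : Y}
    (h5 : IsVF m S δ x y (ca • X) ((sa / δ) • U) (ca • X) ((sa / δ) • U) tu) :
    nrm (ML m S δ x y) tu ≤ 2 * b * (δ * |ca * sa| + 2 * sa ^ 2) := by
  have hb0 : 0 ≤ b := zero_le_one.trans hb.one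
  have hU := nrm_unit H hb δb yy UU
  have hU0 := nrm_nonneg (m x) U
  have hM : ∀ a, 0 ≤ ML m S δ x y a a := fun a => by rw [ML_apply]; exact MM_nonneg H hb δb yy a
  have e := h5.2 tu h5.1
  simp only [dS4_smul, dS4_smul2 H.hS, map_smul, smul_apply, smul_eq_mul] at e
  have hd1 := hb.hS1 X y U y tu
  have hd2 := hb.hS0 y U U tu
  rw [nrm_one XX, nrm_one yy] at hd1
  rw [nrm_one yy] at hd2
  have ht0 := nrm_nonneg (m x) tu
  have hl := MM_lower H hb δb yy tu
  rw [← ML_apply, ← nrm_sq hM] at hl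
  have hn0 := nrm_nonneg (ML m S δ x y) tu
  have hlt : nrm (m x) tu ≤ (101/100) * nrm (ML m S δ x y) tu := by
    by_contra hcon
    push Not at hcon
    nlinarith
  rw [← ML_apply, ← nrm_sq hM] at e
  have e2 : nrm (ML m S δ x y) tu ^ 2
      = - (δ * (ca * sa)) * dS4 S x X y U y tu - 2 * sa ^ 2 * S x y U U tu := by
    rw [e]; field_simp; ring
  have a1 : - (δ * (ca * sa)) * dS4 S x X y U y tu
      ≤ (δ * |ca * sa|) * (b * nrm (m x) U * nrm (m x) tu) := by
    calc - (δ * (ca * sa)) * dS4 S x X y U y tu ≤ |- (δ * (ca * sa)) * dS4 S x X y U y tu| := le_abs_self _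
      _ = (δ * |ca * sa|) * |dS4 S x X y U y tu| := by
        rw [abs_mul, abs_neg, abs_mul, abs_of_pos δ0]
      _ ≤ _ := by
        apply mul_le_mul_of_nonneg_left _ (by positivity)
        linarith
  have a2 : - (2 * sa ^ 2 * S x y U U tu) ≤ (2 * sa ^ 2) * (b * nrm (m x) U ^ 2 * nrm (m x) tu) := by
    have := (abs_le.mp hd2).1
    have h3 : - S x y U U tu ≤ b * nrm (m x) U ^ 2 * nrm (m x) tu := by nlinarith
    calc - (2 * sa ^ 2 * S x y U U tu) = (2 * sa ^ 2) * (- S x y U U tu) := by ring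
      _ ≤ _ := mul_le_mul_of_nonneg_left h3 (by positivity)
  set N := nrm (ML m S δ x y) tu
  set n := nrm (m x) tu
  set u := nrm (m x) U
  have b1 : u * n ≤ (11/10) * N := by
    calc u * n ≤ (101/100) * ((101/100) * N) := mul_le_mul hU hlt ht0 (by norm_num)
      _ ≤ _ := by nlinarith
  have b2 : u ^ 2 * n ≤ (11/10) * N := by
    calc u ^ 2 * n = u * (u * n) := by ring
      _ ≤ (101/100) * ((101/100) * ((101/100) * N)) :=
        mul_le_mul hU (mul_le_mul hU hlt ht0 (by norm_num)) (by positivity) (by norm_num)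
      _ ≤ _ := by nlinarith
  apply le_of_sq_le (by positivity)
  rw [e2]
  have c1 : (δ * |ca * sa|) * (b * u * n) ≤ (δ * |ca * sa|) * (b * ((11/10) * N)) := by
    apply mul_le_mul_of_nonneg_left _ (by positivity)
    rw [mul_assoc]
    exact mul_le_mul_of_nonneg_left b1 hb0
  have c2 : (2 * sa ^ 2) * (b * u ^ 2 * n) ≤ (2 * sa ^ 2) * (b * ((11/10) * N)) := by
    apply mul_le_mul_of_nonneg_left _ (by positivity)
    rw [mul_assoc]
    exact mul_le_mul_of_nonneg_left b2 hb0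
  have c3 : 0 ≤ b * N * (δ * |ca * sa| + 2 * sa ^ 2) := by positivity
  nlinarith

theorem ver_lower (H : NG h m S A x) {b δ : ℝ} (hb : BdN h m S A x b) {X Z : V} {U T : Y}
    {ca sa cb sb : ℝ} (F : Fr h m S δ b x y X Z U T ca sa cb sb) {t tu tv : Y}
    (h4 : IsVF m S δ x y (ca • X) ((sa / δ) • U) (cb • Z) ((sb / δ) • T) t)
    (h5 : IsVF m S δ x y (ca • X) ((sa / δ) • U) (ca • X) ((sa / δ) • U) tu)
    (h6 : IsVF m S δ x y (cb • Z) ((sb / δ) • T) (cb • Z) ((sb / δ) • T) tv) :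
    - (100 * b ^ 3 * Er δ (ca * cb) (sa * sb) (ca * sb) (sa * cb))
      ≤ δ ^ 2 * MM m S δ x y t t - δ ^ 2 * MM m S δ x y tu tv := by
  have hb0 : 0 ≤ b := zero_le_one.trans hb.one
  have hM : ∀ a, 0 ≤ ML m S δ x y a a := fun a => by rw [ML_apply]; exact MM_nonneg H hb F.δb F.yy a
  have hMs : ∀ a b, ML m S δ x y a b = ML m S δ x y b a := fun a b => by
    rw [ML_apply, ML_apply, MM_symm H]
  have h1 := vf_size H hb F.δ0 F.δb F.yy F.XX F.UU h5
  have h2 := vf_size H hb F.δ0 F.δb F.yy F.ZZ F.TT h6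
  have h3 : MM m S δ x y tu tv ≤ nrm (ML m S δ x y) tu * nrm (ML m S δ x y) tv := by
    rw [← ML_apply]; exact (le_abs_self _).trans (cs hMs hM tu tv)
  have h7 : nrm (ML m S δ x y) tu * nrm (ML m S δ x y) tv
      ≤ (2 * b * (δ * |ca * sa| + 2 * sa ^ 2)) * (2 * b * (δ * |cb * sb| + 2 * sb ^ 2)) := by
    have hδ := F.δ0
    exact mul_le_mul h1 h2 (nrm_nonneg _ _) (by positivity)
  have h8 : 0 ≤ δ ^ 2 * MM m S δ x y t t := mul_nonneg (sq_nonneg _) (MM_nonneg H hb F.δb F.yy t)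
  have hδ := F.δ0
  have hδ1 := F.δ1
  have h9 : δ ^ 2 * MM m S δ x y tu tv
      ≤ δ ^ 2 * ((2 * b * (δ * |ca * sa| + 2 * sa ^ 2)) * (2 * b * (δ * |cb * sb| + 2 * sb ^ 2))) :=
    mul_le_mul_of_nonneg_left (h3.trans h7) (sq_nonneg _)
  have e1 : |ca * sa| * |cb * sb| = |ca * cb * (sa * sb)| := by
    rw [← abs_mul]; congr 1; ring
  have e2 : |ca * sa| * sb ^ 2 = |sa * sb| * |ca * sb| := by
    rw [← sq_abs sb]; simp only [abs_mul]; ring
  have e3 : |cb * sb| * sa ^ 2 = |sa * sb| * |sa * cb| := by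
    rw [← sq_abs sa]; simp only [abs_mul]; ring
  have e4 : (2 * b * (δ * |ca * sa| + 2 * sa ^ 2)) * (2 * b * (δ * |cb * sb| + 2 * sb ^ 2))
      = 4 * b ^ 2 * (δ ^ 2 * |ca * cb * (sa * sb)| + 2 * δ * (|sa * sb| * (|ca * sb| + |sa * cb|))
        + 4 * (sa * sb) ^ 2) := by
    rw [← e1, mul_add |sa * sb|, ← e2, ← e3]; ring
  rw [e4] at h9
  have d2 : δ ^ 2 ≤ 1 := pow_le_one₀ hδ.le hδ1
  have g1 : δ ^ 2 * (4 * b ^ 2 * (δ ^ 2 * |ca * cb * (sa * sb)|
      + 2 * δ * (|sa * sb| * (|ca * sb| + |sa * cb|)) + 4 * (sa * sb) ^ 2))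
      ≤ 1 * (4 * b ^ 2 * (δ ^ 2 * |ca * cb * (sa * sb)|
      + 2 * δ * (|sa * sb| * (|ca * sb| + |sa * cb|)) + 4 * (sa * sb) ^ 2)) :=
    mul_le_mul_of_nonneg_right d2 (by positivity)
  have g2 : δ ^ 2 * |ca * cb * (sa * sb)| ≤ 1 * |ca * cb * (sa * sb)| :=
    mul_le_mul_of_nonneg_right d2 (abs_nonneg _)
  have g3 : δ ^ 2 * |ca * cb * (sa * sb)|
      + 2 * δ * (|sa * sb| * (|ca * sb| + |sa * cb|)) + 4 * (sa * sb) ^ 2
      ≤ 4 * Er δ (ca * cb) (sa * sb) (ca * sb) (sa * cb) := by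
    rw [Er]
    have t1 : 0 ≤ δ ^ 2 * (ca * cb) ^ 2 := by positivity
    have t2 : 0 ≤ |ca * cb * (sa * sb)| := abs_nonneg _
    have t3 : 0 ≤ δ * |sa * sb| * (|ca * sb| + |sa * cb|) := by positivity
    have t4 : 0 ≤ δ ^ 3 * |ca * cb| * (|ca * sb| + |sa * cb|) := by positivity
    have t5 : 0 ≤ δ ^ 4 * ((ca * sb) ^ 2 + (sa * cb) ^ 2) := by positivity
    nlinarith
  have hE : 0 ≤ Er δ (ca * cb) (sa * sb) (ca * sb) (sa * cb) := by rw [Er]; positivity
  have g4 : 4 * b ^ 2 * (δ ^ 2 * |ca * cb * (sa * sb)|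
      + 2 * δ * (|sa * sb| * (|ca * sb| + |sa * cb|)) + 4 * (sa * sb) ^ 2)
      ≤ 4 * b ^ 2 * (4 * Er δ (ca * cb) (sa * sb) (ca * sb) (sa * cb)) :=
    mul_le_mul_of_nonneg_left g3 (by positivity)
  have g5 : b ^ 2 * Er δ (ca * cb) (sa * sb) (ca * sb) (sa * cb)
      ≤ b ^ 3 * Er δ (ca * cb) (sa * sb) (ca * sb) (sa * cb) :=
    mul_le_mul_of_nonneg_right (pow_le_pow_right₀ hb.one (by norm_num)) hE
  have g6 : 0 ≤ b ^ 3 * Er δ (ca * cb) (sa * sb) (ca * sb) (sa * cb) := by positivity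
  linarith

end

end Pool.Agent.Helper22.MB
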